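import Pool.Agent.NTW.StmtsB

/-!
# NTW squad (MP_e54c4c_gt), row HB2 (the vector `h`)
-/

set_option autoImplicit false

open Matrix Filter Topology

namespace Pool.Agent.NTW.H68

open Pool.Agent.PFS Pool.Agent.PFJ Pool.Agent.NTS

variable {n K : ℕ}

theorem xt_shift (v : Fin K → V n) (t : Fin K → ℝ) (a : ℝ) :
    xt v (fun i => t i + a) = Real.exp a • xt v t := by
  unfold xt
  rw [Finset.smul_sum]
  refine Finset.sum_congr rfl fun i _ => ?_
  rw [Real.exp_add, smul_smul, mul_comm]

/-- homogeneity of `Nr` -/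
theorem nr_shift {C : Set (V n)} (h : PCone C) {τ : Fin K → Fin K} {M : ℝ}
    {v v' : Fin K → V n} {t : Fin K → ℝ} {x : Fin K → V n} (hN : Nr C τ M v v' t x) (a : ℝ) :
    Nr C τ M v v' (fun i => t i + a) (fun i => Real.exp a • x i) := by
  refine ⟨fun i => Submodule.smul_mem _ _ (hN.mem i), ?_, ?_⟩
  · rw [xt_shift, ← Finset.smul_sum, ← smul_sub]
    exact h.cl_smul hN.lo (Real.exp_pos a).le
  · rw [xt_shift, ← Finset.smul_sum, smul_comm, ← smul_sub]
    exact h.cl_smul hN.up (Real.exp_pos a).le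

theorem hb2 (dcp : DcpStmt) (hcm : HcmStmt) : Hb2Stmt := by
  intro n C Γ K c τ hD v v' ν M k i0 j hHK hHole hM hjk hjr hνj
  have hP : PCone C := hD.toCC.toPCone
  have hcl : IsClosed (closure C) := isClosed_closure
  obtain ⟨-, d2, -, d4, -, -, -⟩ := dcp n C Γ K c τ hD v' hHK.tv'
  have H := hcm n C Γ K c τ hD v v' M k i0 hHK.tv hHK.tv' hM hHole
  have hvcl : ∀ i, v i ∈ closure C := hHK.tv.pes.1.cl
  have hxtC : ∀ t : Fin K → ℝ, xt v t ∈ C := fun t =>
    hHK.tv.pes.1.pos (fun i => Real.exp (t i)) (fun i => Real.exp_pos _)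
  -- elementary facts on the components
  have hsumcl : ∀ (t : Fin K → ℝ) (x : Fin K → V n), Nr C τ M v v' t x →
      ∑ i, x i ∈ closure C := fun t x hN => hP.cl_of_le (subset_closure (hxtC t)) hN.lo
  have hcomp : ∀ (t : Fin K → ℝ) (x : Fin K → V n), Nr C τ M v v' t x →
      ∀ i, x i + x (τ i) ∈ closure C := fun t x hN => d4 x hN.mem (hsumcl t x hN)
  have hle : ∀ (t : Fin K → ℝ) (x : Fin K → V n), Nr C τ M v v' t x →
      (2 : ℝ) • (∑ i, x i) - (x i0 + x (τ i0)) ∈ closure C := by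
    intro t x hN
    have e1 : (2 : ℝ) • (∑ i, x i) = ∑ i, (x i + x (τ i)) := by
      rw [Finset.sum_add_distrib, two_smul]
      congr 1
      exact (Equiv.sum_comp (⟨τ, τ, hD.inv, hD.inv⟩ : Fin K ≃ Fin K) x).symm
    rw [e1, ← Finset.add_sum_erase _ _ (Finset.mem_univ i0), add_sub_cancel_left]
    exact hP.cl_sum fun i _ => hcomp t x hN i
  -- the points `t^u`
  let T : ℝ → Fin K → ℝ := fun u i => if i = j then (1 - ν k * u) / ν j else if i = k then u else 0
  have hTk : ∀ u, T u k = u := by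
    intro u
    change (if k = j then (1 - ν k * u) / ν j else if k = k then u else 0) = u
    rw [if_neg (fun h => hjk h.symm), if_pos rfl]
  have hTr : ∀ u, T u (τ k) = 0 := by
    intro u
    change (if τ k = j then (1 - ν k * u) / ν j else if τ k = k then u else 0) = 0
    rw [if_neg (fun h => hjr h.symm), if_neg hHole.prk]
  have hTs : ∀ u, ∑ i, ν i * T u i = 1 := by
    intro u
    have e : ∀ i, ν i * T u i = (if i = j then (1 - ν k * u) else 0) +
        (if i = k then ν k * u else 0) := by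
      intro i
      change ν i * (if i = j then (1 - ν k * u) / ν j else if i = k then u else 0) = _
      by_cases h1 : i = j
      · subst h1
        rw [if_pos rfl, if_pos rfl, if_neg hjk]
        field_simp
        ring
      · rw [if_neg h1, if_neg h1]
        by_cases h2 : i = k
        · subst h2
          rw [if_pos rfl, if_pos rfl]
          ring
        · rw [if_neg h2, if_neg h2]
          ring
    rw [Finset.sum_congr rfl fun i _ => e i, Finset.sum_add_distrib, Finset.sum_ite_eq',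
      Finset.sum_ite_eq', if_pos (Finset.mem_univ _), if_pos (Finset.mem_univ _)]
    ring
  have hex : ∀ u : ℕ, ∃ x, Nr C τ M v v' (T (u : ℝ)) x := by
    intro u
    obtain ⟨x, hx, -⟩ := hHK.near (T (u : ℝ)) (by rw [hTs]; norm_num)
    exact ⟨x, hx⟩
  choose X hX using hex
  -- the bound
  let W : V n := (2 * M ^ 2 * Real.exp 1) • ∑ i, v i
  have hbd : ∀ u : ℕ, W - Real.exp (-(u : ℝ)) • (X u i0 + X u (τ i0)) ∈ closure C := by
    intro u
    let T' : Fin K → ℝ := fun i => if i = j then (u : ℝ) + 1 else (u : ℝ)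
    have hT's : ∑ i, ν i * T' i = ν j := by
      have e : ∀ i, ν i * T' i = (u : ℝ) * ν i + (if i = j then ν j else 0) := by
        intro i
        simp only [T']
        by_cases h1 : i = j
        · subst h1
          rw [if_pos rfl, if_pos rfl]
          ring
        · rw [if_neg h1, if_neg h1]
          ring
      rw [Finset.sum_congr rfl fun i _ => e i, Finset.sum_add_distrib, Finset.sum_ite_eq',
        if_pos (Finset.mem_univ _), ← Finset.mul_sum, hHK.sum]
      ring
    obtain ⟨x', hx', -⟩ := hHK.near T' (by rw [hT's]; exact hνj)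
    have u0 : (0 : ℝ) ≤ u := Nat.cast_nonneg u
    have s3 := (H (T u) T' (X u) x' (hX u) hx').2.2
      (by
        rw [hTk]
        simp only [T']
        rw [if_neg (fun h => hjk h.symm)])
      (by
        rw [hTr]
        simp only [T']
        rw [if_neg (fun h => hjr h.symm)]
        exact u0)
    have s4 := hle T' x' hx'
    have s5 := hx'.up
    have s6 : Real.exp ((u : ℝ) + 1) • (∑ i, v i) - xt v T' ∈ closure C := by
      unfold xt
      rw [Finset.smul_sum, ← Finset.sum_sub_distrib]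
      refine hP.cl_sum fun i _ => ?_
      rw [← sub_smul]
      refine hP.cl_smul (hvcl i) ?_
      rw [sub_nonneg]
      refine Real.exp_le_exp.mpr ?_
      simp only [T']
      split_ifs <;> linarith
    have M0 : (0 : ℝ) ≤ M := by linarith
    have e0 : (0 : ℝ) ≤ Real.exp (-(u : ℝ)) := (Real.exp_pos _).le
    have q1 := hP.cl_smul s4 M0
    have q2 := hP.cl_smul s5 (mul_nonneg M0 (by norm_num : (0 : ℝ) ≤ 2))
    have q3 := hP.cl_smul s6 (mul_nonneg (mul_nonneg M0 M0) (by norm_num : (0 : ℝ) ≤ 2))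
    have q4 := hP.cl_smul (hP.cl_add (hP.cl_add s3 q1) (hP.cl_add q2 q3)) e0
    have hexp : Real.exp (-(u : ℝ)) * Real.exp ((u : ℝ) + 1) = Real.exp 1 := by
      rw [← Real.exp_add]
      congr 1
      ring
    have e : W - Real.exp (-(u : ℝ)) • (X u i0 + X u (τ i0)) =
        Real.exp (-(u : ℝ)) • ((M • (x' i0 + x' (τ i0)) - (X u i0 + X u (τ i0)) +
          M • ((2 : ℝ) • (∑ i, x' i) - (x' i0 + x' (τ i0)))) +
          ((M * 2) • (M • xt v T' - ∑ i, x' i) +
          (M * M * 2) • (Real.exp ((u : ℝ) + 1) • (∑ i, v i) - xt v T'))) := by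
      simp only [W]
      rw [← hexp]
      module
    rw [e]
    exact q4
  obtain ⟨B, hB, hnorm⟩ := hP.normal
  have hin : ∀ u : ℕ, Real.exp (-(u : ℝ)) • (X u i0 + X u (τ i0)) ∈ closure C := fun u =>
    hP.cl_smul (hcomp _ _ (hX u) i0) (Real.exp_pos _).le
  have hball : ∀ u : ℕ, Real.exp (-(u : ℝ)) • (X u i0 + X u (τ i0)) ∈
      Metric.closedBall (0 : V n) (B * ‖W‖) := by
    intro u
    rw [mem_closedBall_zero_iff]
    exact hnorm _ _ (hin u) (hbd u)
  obtain ⟨h, -, φ, hφ, hlim⟩ := (isCompact_closedBall (0 : V n) (B * ‖W‖)).tendsto_subseq hball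
  have hmemL : h ∈ Lf C τ v' i0 := by
    have hc : IsClosed ((Lf C τ v' i0 : Submodule ℝ (V n)) : Set (V n)) :=
      Submodule.closed_of_finiteDimensional _
    refine hc.mem_of_tendsto hlim (Eventually.of_forall fun m => ?_)
    refine Submodule.smul_mem _ _ (Submodule.add_mem _ ((hX _).mem i0) ?_)
    have := (hX (φ m)).mem (τ i0)
    rwa [d2 i0] at this
  have hmemC : h ∈ closure C :=
    hcl.mem_of_tendsto hlim (Eventually.of_forall fun m => hin _)
  refine ⟨h, hmemL, hmemC, ?_⟩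
  intro t x ht hN
  -- the comparison points
  have hev : ∀ᶠ m : ℕ in atTop, t k - t (τ k) ≤ ((φ m : ℕ) : ℝ) :=
    (tendsto_natCast_atTop_atTop.comp hφ.tendsto_atTop).eventually_ge_atTop _
  have hexp2 : ∀ m : ℕ, Real.exp (t k + -((φ m : ℕ) : ℝ)) • X (φ m) i0 +
      Real.exp (t k + -((φ m : ℕ) : ℝ)) • X (φ m) (τ i0) =
      Real.exp (t k) • (Real.exp (-((φ m : ℕ) : ℝ)) • (X (φ m) i0 + X (φ m) (τ i0))) := by
    intro m
    rw [Real.exp_add]
    module
  have hlim2 : Tendsto (fun m => Real.exp (t k) •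
      (Real.exp (-((φ m : ℕ) : ℝ)) • (X (φ m) i0 + X (φ m) (τ i0)))) atTop
      (𝓝 (Real.exp (t k) • h)) := hlim.const_smul _
  have key : ∀ᶠ m : ℕ in atTop,
      M • (x i0 + x (τ i0)) - Real.exp (t k) •
        (Real.exp (-((φ m : ℕ) : ℝ)) • (X (φ m) i0 + X (φ m) (τ i0))) ∈ closure C ∧
      M • (Real.exp (t k) •
        (Real.exp (-((φ m : ℕ) : ℝ)) • (X (φ m) i0 + X (φ m) (τ i0))) +
        Real.exp (t (τ k)) • v (τ k)) - (x i0 + x (τ i0)) ∈ closure C := by
    filter_upwards [hev] with m hm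
    have hN' := nr_shift hP (hX (φ m)) (t k + -((φ m : ℕ) : ℝ))
    have ek : T ((φ m : ℕ) : ℝ) k + (t k + -((φ m : ℕ) : ℝ)) = t k := by
      rw [hTk]; ring
    have er : T ((φ m : ℕ) : ℝ) (τ k) + (t k + -((φ m : ℕ) : ℝ)) ≤ t (τ k) := by
      rw [hTr]; linarith
    have a1 := (H _ t _ x hN' hN).2.2 ek.le er
    have a2 := (H t _ x _ hN hN').2.1 ek.ge
    rw [hexp2 m] at a1 a2
    exact ⟨a1, a2⟩
  constructor
  · exact hcl.mem_of_tendsto (tendsto_const_nhds.sub hlim2) (key.mono fun m hm => hm.1)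
  · exact hcl.mem_of_tendsto (((hlim2.add tendsto_const_nhds).const_smul M).sub
      tendsto_const_nhds) (key.mono fun m hm => hm.2)

end Pool.Agent.NTW.H68
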